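import Pool.Agent.H9.SuperH

/-!
Full answer to Q1 of MP_c42a9c_nt: for every odd prime `p` and every `r ≥ 1`,
`A_r(p) ≡ B_r(p) (mod p^(r+4))`, i.e. `(A_r(p) - B_r(p)) / p^(r+4)` is a rational number whose
denominator is prime to `p`.
-/

namespace Pool.Agent.Results.MP_c42a9c_nt.TruncatedSums

open Finset

theorem result (p : ℕ) (hp : p.Prime) (hodd : Odd p) (r : ℕ) (_hr : 1 ≤ r) :
    (((∑ k ∈ range ((p ^ r - 1) / 2 + 1),
          (4 * (k : ℚ) + 1) * ((ascPochhammer ℚ k).eval (1 / 2)) ^ 4 / (k.factorial : ℚ) ^ 4)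
        - ∑ k ∈ range (p ^ r),
          (3 * (k : ℚ) + 1) * ((ascPochhammer ℚ k).eval (1 / 2)) ^ 3 / (k.factorial : ℚ) ^ 3
            * 2 ^ (2 * k))
      / (p : ℚ) ^ (r + 4)).den.Coprime p := by
  have : Fact p.Prime := ⟨hp⟩
  have h2 : p ≠ 2 := by
    rintro rfl
    exact absurd hodd (by decide)
  have hoddr : Odd (p ^ r) := hodd.pow
  obtain ⟨n, hn⟩ := hoddr
  have hn2 : (p ^ r - 1) / 2 + 1 = n + 1 := by omega
  have key := Pool.Agent.H9.Super.padic_main (p := p) h2 r n hn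
  have hA : ∑ k ∈ range ((p ^ r - 1) / 2 + 1),
      (4 * (k : ℚ) + 1) * ((ascPochhammer ℚ k).eval (1 / 2)) ^ 4 / (k.factorial : ℚ) ^ 4
      = ∑ k ∈ range (n+1), (4*(k:ℚ)+1) * Pool.Agent.H9.Super.be k ^ 4 := by
    rw [hn2]
    refine sum_congr rfl ?_
    intro k _
    unfold Pool.Agent.H9.Super.be Pool.Agent.H9.Super.P
    rw [div_pow]
    ring
  have hB : ∑ k ∈ range (p ^ r),
      (3 * (k : ℚ) + 1) * ((ascPochhammer ℚ k).eval (1 / 2)) ^ 3 / (k.factorial : ℚ) ^ 3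
        * 2 ^ (2 * k)
      = ∑ k ∈ range (2*n+1), (3*(k:ℚ)+1) * Pool.Agent.H9.Super.be k ^ 3 * 4^k := by
    rw [hn]
    refine sum_congr rfl ?_
    intro k _
    unfold Pool.Agent.H9.Super.be Pool.Agent.H9.Super.P
    rw [div_pow, pow_mul]
    norm_num
    ring
  rw [hA, hB]
  exact Pool.Agent.H9.Super.den_coprime key

end Pool.Agent.Results.MP_c42a9c_nt.TruncatedSums
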